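import Mathlib
import Pool.Agent.W139.BDInterp
import Pool.Agent.W139.BDTower

/-!
Poly-line upward planar grid drawings of bipartite DAGs can need quadratic area.
-/

namespace Pool.Agent.Results.MP_9caa86_co.PolylineQuadratic

open Pool.Agent.W139.BD

/-- A bipartite DAG with vertex set `Fin n`: a class `src` of vertices is chosen, and every edge
is directed from a vertex of this class to a vertex outside it. -/
structure BipDAG (n : ℕ) where
  src : Fin n → Prop
  Adj : Fin n → Fin n → Prop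
  bip : ∀ u v, Adj u v → src u ∧ ¬ src v

/-- The corners of the chain that represents the edge `u → v`: the point of `u`, the bends, the
point of `v`. -/
def route {n : ℕ} (pos : Fin n → ℤ × ℤ) (bends : Fin n → Fin n → List (ℤ × ℤ)) (u v : Fin n) :
    List (ℤ × ℤ) :=
  pos u :: (bends u v ++ [pos v])

/-- A poly-line upward planar grid drawing: distinct grid points for the vertices; the edge
`u → v` is a polygonal chain from the point of `u` to the point of `v` all of whose bends are grid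
points, with strictly increasing `y`-coordinate; two distinct edges meet only at the point of a
common endpoint; no edge passes through a vertex that is not one of its endpoints. -/
structure PolyDrawing {n : ℕ} (G : BipDAG n) where
  pos : Fin n → ℤ × ℤ
  bends : Fin n → Fin n → List (ℤ × ℤ)
  pos_inj : Function.Injective pos
  upward : ∀ u v, G.Adj u v →
    List.IsChain (fun p q : ℤ × ℤ => p.2 < q.2) (route pos bends u v)
  noncrossing : ∀ u v u' v', G.Adj u v → G.Adj u' v' → (u, v) ≠ (u', v') →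
    ∀ z, z ∈ polyline (route pos bends u v) → z ∈ polyline (route pos bends u' v') →
      ∃ w, (w = u ∨ w = v) ∧ (w = u' ∨ w = v') ∧ z = toPlane (pos w)
  vertex_free : ∀ u v w, G.Adj u v → toPlane (pos w) ∈ polyline (route pos bends u v) →
    w = u ∨ w = v

/-- The drawing lies in the axis-parallel rectangle `[x₀, x₀ + W] × [y₀, y₀ + H]`. -/
def PolyDrawing.InBox {n : ℕ} {G : BipDAG n} (D : PolyDrawing G) (x₀ y₀ : ℤ) (W H : ℕ) : Prop :=
  (∀ v, x₀ ≤ (D.pos v).1 ∧ (D.pos v).1 ≤ x₀ + W ∧ y₀ ≤ (D.pos v).2 ∧ (D.pos v).2 ≤ y₀ + H) ∧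
  ∀ u v, G.Adj u v → ∀ p ∈ D.bends u v, x₀ ≤ p.1 ∧ p.1 ≤ x₀ + W ∧ y₀ ≤ p.2 ∧ p.2 ≤ y₀ + H

/-- The area of a drawing: the least `W * H` over all rectangles with integer corners, of
width `W` and height `H`, that contain the drawing. -/
noncomputable def PolyDrawing.area {n : ℕ} {G : BipDAG n} (D : PolyDrawing G) : ℕ :=
  sInf {a | ∃ (x₀ y₀ : ℤ) (W H : ℕ), D.InBox x₀ y₀ W H ∧ a = W * H}

/-- The minimum area of a poly-line upward planar grid drawing of `G`. -/
noncomputable def minArea {n : ℕ} (G : BipDAG n) : ℕ :=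
  sInf {a | ∃ D : PolyDrawing G, a = D.area}

/-- `A n` (in the problem `A_p(n)`): the maximum, over all `n`-vertex bipartite DAGs that have a
poly-line upward planar grid drawing, of the minimum area of such a drawing. -/
noncomputable def A (n : ℕ) : ℕ :=
  sSup {a | ∃ G : BipDAG n, Nonempty (PolyDrawing G) ∧ a = minArea G}

/-! ### From drawings to systems of curves -/

section conv

variable {n : ℕ} {G : BipDAG n} (D : PolyDrawing G)

theorem route_ne (pos : Fin n → ℤ × ℤ) (bends : Fin n → Fin n → List (ℤ × ℤ)) (u v : Fin n) :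
    route pos bends u v ≠ [] := List.cons_ne_nil _ _

theorem route_head (pos : Fin n → ℤ × ℤ) (bends : Fin n → Fin n → List (ℤ × ℤ)) (u v : Fin n)
    (h : route pos bends u v ≠ []) : (route pos bends u v).head h = pos u := rfl

theorem route_last (pos : Fin n → ℤ × ℤ) (bends : Fin n → Fin n → List (ℤ × ℤ)) (u v : Fin n)
    (h : route pos bends u v ≠ []) : (route pos bends u v).getLast h = pos v := by
  unfold route
  rw [List.getLast_cons (by simp)]
  simp

theorem bip_ne {G : BipDAG n} {u v u' v' : Fin n} (h : G.Adj u v) (h' : G.Adj u' v') : u ≠ v' := by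
  rintro rfl
  exact (G.bip _ _ h').2 (G.bip _ _ h).1

/-- the system of curves of a drawing -/
noncomputable def sys : Sys ℕ where
  X u := if h : u < n then ((D.pos ⟨u, h⟩).1 : ℝ) else 0
  Y u := if h : u < n then ((D.pos ⟨u, h⟩).2 : ℝ) else 0
  E u v := ∃ (hu : u < n) (hv : v < n), G.Adj ⟨u, hu⟩ ⟨v, hv⟩
  F u v y := if h : u < n ∧ v < n then interp (route D.pos D.bends ⟨u, h.1⟩ ⟨v, h.2⟩) y else 0
  pts u v := if h : u < n ∧ v < n then route D.pos D.bends ⟨u, h.1⟩ ⟨v, h.2⟩ else []
  lt := by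
    rintro u v ⟨hu, hv, h⟩
    simp only [dif_pos hu, dif_pos hv]
    have h1 := D.upward _ _ h
    have h3 : (D.pos ⟨u, hu⟩).2 < (D.pos ⟨v, hv⟩).2 := by
      unfold route at h1
      rcases hb : D.bends ⟨u, hu⟩ ⟨v, hv⟩ with _ | ⟨b, l⟩
      · rw [hb] at h1
        exact (List.isChain_cons_cons.1 h1).1
      · rw [hb] at h1
        have h4 := List.isChain_cons_cons.1 h1
        have h5 := (head_le_last _ h4.2 (List.cons_ne_nil _ _) b List.mem_cons_self).2
        have h6 : ((b :: (l.append [D.pos ⟨v, hv⟩])).getLast (List.cons_ne_nil _ _))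
            = D.pos ⟨v, hv⟩ := by
          change (b :: (l ++ [D.pos ⟨v, hv⟩])).getLast _ = _
          rw [List.getLast_cons (by simp)]
          simp
        rw [h6] at h5
        exact lt_of_lt_of_le h4.1 h5
    exact_mod_cast h3
  cont := by
    rintro u v ⟨hu, hv, h⟩
    have h0 : u < n ∧ v < n := ⟨hu, hv⟩
    simp only [dif_pos h0]
    exact interp_cont _ (D.upward _ _ h)
  low := by
    rintro u v ⟨hu, hv, h⟩ y hy
    have h0 : u < n ∧ v < n := ⟨hu, hv⟩
    simp only [dif_pos h0, dif_pos hu] at hy ⊢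
    exact interp_low _ _ (D.upward _ _ h) hy
  high := by
    rintro u v ⟨hu, hv, h⟩ y hy
    have h0 : u < n ∧ v < n := ⟨hu, hv⟩
    simp only [dif_pos h0, dif_pos hv] at hy ⊢
    have := interp_high _ (D.upward _ _ h) (route_ne _ _ _ _) (y := y)
    rw [route_last] at this
    exact this hy
  ne := by
    rintro u v u' v' ⟨hu, hv, h⟩ ⟨hu', hv', h'⟩ hne y y1 y2 y3 y4 he
    have h0 : u < n ∧ v < n := ⟨hu, hv⟩
    have h0' : u' < n ∧ v' < n := ⟨hu', hv'⟩
    simp only [dif_pos h0, dif_pos h0', dif_pos hu, dif_pos hv, dif_pos hu', dif_pos hv'] at *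
    have m1 := interp_mem _ (D.upward _ _ h) (route_ne _ _ _ _) (y := y)
    rw [route_last, route_head] at m1
    have m2 := interp_mem _ (D.upward _ _ h') (route_ne _ _ _ _) (y := y)
    rw [route_last, route_head, ← he] at m2
    have hpq : ((⟨u, hu⟩ : Fin n), (⟨v, hv⟩ : Fin n)) ≠ (⟨u', hu'⟩, ⟨v', hv'⟩) := by
      intro h1
      simp only [Prod.mk.injEq, Fin.mk.injEq] at h1
      rcases hne with h2 | h2
      · exact h2 h1.1
      · exact h2 h1.2
    obtain ⟨w, hw1, hw2, hw3⟩ := D.noncrossing _ _ _ _ h h' hpq _ (m1 y1 y2) (m2 y3 y4)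
    have hw4 : y = ((D.pos w).2 : ℝ) := congrArg Prod.snd hw3
    rcases hw1 with rfl | rfl
    · rcases hw2 with h5 | h5
      · left
        simp only [Fin.mk.injEq] at h5
        exact ⟨h5, hw4⟩
      · exact absurd h5 (bip_ne h h')
    · rcases hw2 with h5 | h5
      · exact absurd h5.symm (bip_ne h' h)
      · right
        simp only [Fin.mk.injEq] at h5
        exact ⟨h5, hw4⟩
  free := by
    rintro u v w z ⟨hu, hv, h⟩ ⟨hz, hw, h'⟩ h1 h2 he
    have h0 : u < n ∧ v < n := ⟨hu, hv⟩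
    simp only [dif_pos h0, dif_pos hu, dif_pos hv, dif_pos hw] at *
    have m1 := interp_mem _ (D.upward _ _ h) (route_ne _ _ _ _) (y := ((D.pos ⟨w, hw⟩).2 : ℝ))
    rw [route_last, route_head, he] at m1
    have := D.vertex_free _ _ ⟨w, hw⟩ h (m1 h1 h2)
    simpa only [Fin.mk.injEq] using this
  pmem := by
    rintro u v ⟨hu, hv, h⟩ p hp
    have h0 : u < n ∧ v < n := ⟨hu, hv⟩
    simp only [dif_pos h0, dif_pos hu, dif_pos hv] at *
    have h1 := head_le_last _ (D.upward _ _ h) (route_ne _ _ _ _) p hp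
    rw [route_last, route_head] at h1
    exact ⟨by exact_mod_cast h1.1, by exact_mod_cast h1.2, interp_pt _ (D.upward _ _ h) p hp⟩
  ple := by
    rintro u v ⟨hu, hv, h⟩ y
    have h0 : u < n ∧ v < n := ⟨hu, hv⟩
    simp only [dif_pos h0]
    exact (interp_le _ (D.upward _ _ h) (route_ne _ _ _ _) y).1
  pge := by
    rintro u v ⟨hu, hv, h⟩ y
    have h0 : u < n ∧ v < n := ⟨hu, hv⟩
    simp only [dif_pos h0]
    exact (interp_le _ (D.upward _ _ h) (route_ne _ _ _ _) y).2
  pbot := by
    rintro u v ⟨hu, hv, h⟩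
    have h0 : u < n ∧ v < n := ⟨hu, hv⟩
    simp only [dif_pos h0, dif_pos hu]
    exact ⟨D.pos ⟨u, hu⟩, List.mem_cons_self, rfl⟩
  ptop := by
    rintro u v ⟨hu, hv, h⟩
    have h0 : u < n ∧ v < n := ⟨hu, hv⟩
    simp only [dif_pos h0, dif_pos hv]
    refine ⟨D.pos ⟨v, hv⟩, ?_, rfl⟩
    unfold route
    simp

theorem sys_pts {i : ℕ} {p : ℤ × ℤ} (hp : (sys D).Pt i p) {x₀ y₀ : ℤ} {W H : ℕ}
    (T : ∀ s t, (s = 5 * i ∨ s = 5 * i + 1) → (t = 5 * i + 2 ∨ t = 5 * i + 3) → (sys D).E s t)
    (hbox : D.InBox x₀ y₀ W H) : x₀ ≤ p.1 ∧ p.1 ≤ x₀ + W ∧ y₀ ≤ p.2 ∧ p.2 ≤ y₀ + H := by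
  obtain ⟨s, t, hs, ht, hp⟩ := hp
  obtain ⟨hs', ht', h⟩ := T s t hs ht
  have h0 : s < n ∧ t < n := ⟨hs', ht'⟩
  have hp : p ∈ route D.pos D.bends ⟨s, hs'⟩ ⟨t, ht'⟩ := by
    simpa only [sys, dif_pos h0] using hp
  unfold route at hp
  rcases List.mem_cons.1 hp with rfl | hp
  · exact hbox.1 _
  · rcases List.mem_append.1 hp with hp | hp
    · exact hbox.2 _ _ h p hp
    · rw [List.mem_singleton.1 hp]
      exact hbox.1 _

end conv

/-! ### The graph -/

/-- The edges (as a relation on natural numbers, `m` levels): level `i` consists of the sources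
`5i`, `5i+1` and the sinks `5i+2`, `5i+3`, `5i+4`. -/
def towerAdj (m u v : ℕ) : Prop :=
  u < 5 * m ∧ v < 5 * m ∧
  ((u % 5 = 0 ∧ ((v % 5 = 2 ∧ (v / 5 = u / 5 ∨ v / 5 = u / 5 + 1)) ∨ (v % 5 = 3 ∧ v / 5 = u / 5) ∨
      (v % 5 = 4 ∧ (v / 5 = u / 5 ∨ v / 5 + 1 = u / 5)))) ∨
   (u % 5 = 1 ∧ ((v % 5 = 2 ∧ v / 5 = u / 5) ∨
      (v % 5 = 3 ∧ (v / 5 = u / 5 ∨ v / 5 = u / 5 + 1)) ∨ (v % 5 = 4 ∧ v / 5 = u / 5))))

/-- the `n`-vertex tower -/
def tower (n : ℕ) : BipDAG n where
  src v := v.val % 5 ≤ 1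
  Adj u v := towerAdj (n / 5) u.val v.val
  bip u v h := by
    obtain ⟨-, -, h⟩ := h
    omega

theorem tower_T {n : ℕ} (D : PolyDrawing (tower n)) : (sys D).Tower (n / 5) := by
  have key : ∀ u v, towerAdj (n / 5) u v → (sys D).E u v := by
    intro u v h
    have h1 := h.1
    have h2 := h.2.1
    exact ⟨by omega, by omega, h⟩
  constructor <;> intro i hi <;> apply key <;> refine ⟨by omega, by omega, ?_⟩ <;> omega

theorem tower_lower {n : ℕ} (D : PolyDrawing (tower n)) {x₀ y₀ : ℤ} {W H : ℕ}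
    (hbox : D.InBox x₀ y₀ W H) : n / 5 - 2 ≤ W ∧ n / 5 - 2 ≤ H := by
  have T := tower_T D
  refine T.box (x₀ := x₀) (y₀ := y₀) ?_
  intro i hi p hp
  exact sys_pts D hp (fun s t hs ht => (T.cyc hi).edge _ hs ht) hbox

/-! ### A drawing of the tower -/

/-- the level of a vertex -/
def lv (v : ℕ) : ℕ := v / 5

/-- the height of the sink `v` -/
def sh (v : ℕ) : ℤ :=
  if v % 5 = 2 then -((lv v : ℕ) + 1) else if v % 5 = 3 then 2 * ((lv v : ℕ) + 1)
  else 2 * ((lv v : ℕ) + 1) + 1

/-- the side of the source `u` -/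
def sd (u : ℕ) : ℤ := if u % 5 = 0 then -1 else 1

/-- the point of the vertex `v` -/
def tpos (n v : ℕ) : ℤ × ℤ :=
  if v < 5 * (n / 5) then
    (if v % 5 ≤ 1 then (sd v * (2 * (((lv v : ℕ) : ℤ) + 1)), -4 * (((lv v : ℕ) : ℤ) + 1))
    else (0, sh v))
  else (0, 2 * n + 5 + v)

theorem tpos_src {n m u v : ℕ} (hm : m = n / 5) (h : towerAdj m u v) :
    tpos n u = ((sd u * (2 * (((lv u : ℕ) : ℤ) + 1)), -4 * (((lv u : ℕ) : ℤ) + 1)) : ℤ × ℤ) := by
  subst hm
  obtain ⟨h1, -, h3⟩ := h
  unfold tpos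
  rw [if_pos h1, if_pos (by omega)]

theorem tpos_snk {n m u v : ℕ} (hm : m = n / 5) (h : towerAdj m u v) :
    tpos n v = (0, sh v) := by
  subst hm
  obtain ⟨-, h1, h3⟩ := h
  unfold tpos
  rw [if_pos h1, if_neg (by omega)]

theorem sh_inj {v w : ℕ} (hv : 2 ≤ v % 5) (hw : 2 ≤ w % 5) (h : sh v = sh w) : v = w := by
  unfold sh lv at h
  split_ifs at h <;> omega

theorem sh_ne {v : ℕ} : sh v ≠ 0 := by
  unfold sh lv
  split_ifs <;> omega

/-- the order of the sinks seen from two sources on the same side -/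
theorem sh_order {m u v u' v' : ℕ} (h : towerAdj m u v) (h' : towerAdj m u' v')
    (hs : u % 5 = u' % 5) (hu : lv u < lv u') :
    (0 < sh v' ∧ sh v ≤ sh v') ∨ (sh v' < 0 ∧ sh v' ≤ sh v) := by
  obtain ⟨-, -, h⟩ := h
  obtain ⟨-, -, h'⟩ := h'
  unfold lv at hu
  unfold sh lv
  split_ifs <;> omega

theorem mem_two {p q : ℤ × ℤ} {z : ℝ × ℝ} (h : z ∈ polyline [p, q]) :
    ∃ t : ℝ, 0 ≤ t ∧ t ≤ 1 ∧ z.1 = p.1 * t + q.1 * (1 - t) ∧ z.2 = p.2 * t + q.2 * (1 - t) := by
  have key : z ∈ segment ℝ (toPlane p) (toPlane q) → ∃ t : ℝ, 0 ≤ t ∧ t ≤ 1 ∧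
      z.1 = p.1 * t + q.1 * (1 - t) ∧ z.2 = p.2 * t + q.2 * (1 - t) := by
    rintro ⟨a, b, ha, hb, hab, rfl⟩
    refine ⟨a, ha, by linarith, ?_, ?_⟩
    · simp only [toPlane, Prod.smul_mk, smul_eq_mul, Prod.mk_add_mk]
      rw [← hab]; ring
    · simp only [toPlane, Prod.smul_mk, smul_eq_mul, Prod.mk_add_mk]
      rw [← hab]; ring
  rcases h with h | h
  · exact key h
  · apply key
    have : z = toPlane q := h
    rw [this]
    exact right_mem_segment _ _ _

theorem edge_param {n m u v : ℕ} (hm : m = n / 5) (h : towerAdj m u v) {z : ℝ × ℝ}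
    (hz : z ∈ polyline [tpos n u, tpos n v]) :
    ∃ t : ℝ, 0 ≤ t ∧ t ≤ 1 ∧ z.1 = (sd u : ℝ) * (2 * (((lv u : ℕ) : ℝ) + 1) * t) ∧
      z.2 = -4 * (((lv u : ℕ) : ℝ) + 1) * t + (sh v : ℝ) * (1 - t) := by
  obtain ⟨t, t0, t1, h1, h2⟩ := mem_two hz
  rw [tpos_src hm h, tpos_snk hm h] at h1 h2
  refine ⟨t, t0, t1, ?_, ?_⟩
  · rw [h1]; push_cast; ring
  · rw [h2]; push_cast; ring

theorem sd_cases (u : ℕ) : (u % 5 = 0 ∧ sd u = -1) ∨ (u % 5 ≠ 0 ∧ sd u = 1) := by
  unfold sd
  by_cases h : u % 5 = 0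
  · left; exact ⟨h, if_pos h⟩
  · right; exact ⟨h, if_neg h⟩

/-- the points at distance `μ` from the axis on two edges from different levels, same side -/
theorem cross_lt {m u v u' v' : ℕ} (h : towerAdj m u v) (h' : towerAdj m u' v')
    (hs : u % 5 = u' % 5) (hu : lv u < lv u') {t t' : ℝ} (t0 : 0 ≤ t) (t1 : t ≤ 1) (t0' : 0 ≤ t')
    (e1 : (((lv u : ℕ) : ℝ) + 1) * t = (((lv u' : ℕ) : ℝ) + 1) * t')
    (e2 : (sh v : ℝ) * (1 - t) = (sh v' : ℝ) * (1 - t')) : t = 0 ∧ t' = 0 := by
  have hu' : (((lv u : ℕ) : ℝ)) + 1 ≤ ((lv u' : ℕ) : ℝ) := by exact_mod_cast hu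
  have hu0 : (0 : ℝ) ≤ ((lv u : ℕ) : ℝ) := Nat.cast_nonneg _
  rcases eq_or_lt_of_le t0' with h0 | h0
  · refine ⟨?_, h0.symm⟩
    rw [← h0, mul_zero] at e1
    rcases mul_eq_zero.1 e1 with h1 | h1
    · linarith
    · exact h1
  · exfalso
    have htt : t' < t := by
      by_contra hcon
      push Not at hcon
      have : (((lv u : ℕ) : ℝ) + 1) * t ≤ (((lv u : ℕ) : ℝ) + 1) * t' :=
        mul_le_mul_of_nonneg_left hcon (by linarith)
      nlinarith
    rcases sh_order h h' hs hu with ⟨a1, a2⟩ | ⟨a1, a2⟩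
    · have b1 : (0 : ℝ) < sh v' := by exact_mod_cast a1
      have b2 : (sh v : ℝ) ≤ sh v' := by exact_mod_cast a2
      have c1 : (sh v : ℝ) * (1 - t) ≤ (sh v' : ℝ) * (1 - t) :=
        mul_le_mul_of_nonneg_right b2 (by linarith)
      nlinarith
    · have b1 : (sh v' : ℝ) < 0 := by exact_mod_cast a1
      have b2 : (sh v' : ℝ) ≤ sh v := by exact_mod_cast a2
      have c1 : (sh v' : ℝ) * (1 - t) ≤ (sh v : ℝ) * (1 - t) :=
        mul_le_mul_of_nonneg_right b2 (by linarith)
      nlinarith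

theorem tpos_inj (n : ℕ) {v w : ℕ} (h : tpos n v = tpos n w) : v = w := by
  unfold tpos at h
  split_ifs at h with h1 h2 h3 h4 h5 h6 h7 h8
  all_goals simp only [Prod.mk.injEq] at h
  · obtain ⟨e1, e2⟩ := h
    have e3 : lv v = lv w := by omega
    rw [e3] at e1
    have e4 : sd v = sd w := by
      have : (2 * (((lv w : ℕ) : ℤ) + 1)) ≠ 0 := by omega
      exact mul_right_cancel₀ this e1
    unfold lv at e3
    rcases sd_cases v with a | a <;> rcases sd_cases w with b | b <;> omega
  · obtain ⟨e1, e2⟩ := h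
    rcases mul_eq_zero.1 e1 with e | e
    · rcases sd_cases v with a | a <;> omega
    · omega
  · obtain ⟨e1, e2⟩ := h
    omega
  · obtain ⟨e1, e2⟩ := h
    rcases mul_eq_zero.1 e1.symm with e | e
    · rcases sd_cases w with a | a <;> omega
    · omega
  · exact sh_inj (by omega) (by omega) h.2
  · obtain ⟨e1, e2⟩ := h
    unfold sh lv at e2
    split_ifs at e2 <;> omega
  · obtain ⟨e1, e2⟩ := h
    omega
  · obtain ⟨e1, e2⟩ := h
    unfold sh lv at e2
    split_ifs at e2 <;> omega
  · omega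

/-- a straight-line drawing of the tower -/
def tdraw (n : ℕ) : PolyDrawing (tower n) where
  pos v := tpos n v.val
  bends _ _ := []
  pos_inj := fun v w h => Fin.ext (tpos_inj n h)
  upward := by
    intro u v h
    have h' : towerAdj (n / 5) u.val v.val := h
    unfold route
    refine List.isChain_cons_cons.2 ⟨?_, List.isChain_singleton _⟩
    show (tpos n u.val).2 < (tpos n v.val).2
    rw [tpos_src rfl h', tpos_snk rfl h']
    obtain ⟨-, -, h⟩ := h'
    show -4 * (((lv u.val : ℕ) : ℤ) + 1) < sh v.val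
    unfold sh lv
    split_ifs <;> omega
  noncrossing := by
    intro u v u' v' h h' hne z hz hz'
    have a : towerAdj (n / 5) u.val v.val := h
    have a' : towerAdj (n / 5) u'.val v'.val := h'
    obtain ⟨t, t0, t1, e1, e2⟩ := edge_param rfl a hz
    obtain ⟨t', t0', t1', e1', e2'⟩ := edge_param rfl a' hz'
    have hu0 : (0 : ℝ) ≤ ((lv u.val : ℕ) : ℝ) := Nat.cast_nonneg _
    have hu0' : (0 : ℝ) ≤ ((lv u'.val : ℕ) : ℝ) := Nat.cast_nonneg _
    -- if both parameters vanish, the point is a common sink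
    have fin : t = 0 → t' = 0 → ∃ w, (w = u ∨ w = v) ∧ (w = u' ∨ w = v') ∧
        z = toPlane (tpos n w.val) := by
      rintro rfl rfl
      have h1 : (sh v.val : ℝ) = sh v'.val := by
        rw [e2] at e2'
        linarith
      have h2 : v = v' := by
        apply Fin.ext
        apply sh_inj
        · have := a.2.2; omega
        · have := a'.2.2; omega
        · exact_mod_cast h1
      refine ⟨v, Or.inr rfl, Or.inr h2, ?_⟩
      rw [tpos_snk rfl a]
      ext
      · rw [e1]; simp [toPlane]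
      · rw [e2]; simp [toPlane]
    rw [e1] at e1'
    rw [e2] at e2'
    by_cases hs : u.val % 5 = u'.val % 5
    · have hsd : sd u.val = sd u'.val := by unfold sd; rw [hs]
      have hsd0 : (sd u'.val : ℝ) ≠ 0 := by
        rcases sd_cases u'.val with b | b <;> rw [b.2] <;> norm_num
      rw [hsd] at e1'
      have e3 := mul_left_cancel₀ hsd0 e1'
      have e4 : (((lv u.val : ℕ) : ℝ) + 1) * t = (((lv u'.val : ℕ) : ℝ) + 1) * t' := by linarith
      have e5 : (sh v.val : ℝ) * (1 - t) = (sh v'.val : ℝ) * (1 - t') := by linarith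
      rcases lt_trichotomy (lv u.val) (lv u'.val) with h3 | h3 | h3
      · obtain ⟨f1, f2⟩ := cross_lt a a' hs h3 t0 t1 t0' e4 e5
        exact fin f1 f2
      · have huu : u = u' := Fin.ext (by unfold lv at h3; omega)
        subst huu
        have htt : t = t' := mul_left_cancel₀ (by linarith) e4
        subst htt
        have h6 : ((sh v.val : ℝ) - sh v'.val) * (1 - t) = 0 := by linarith
        rcases mul_eq_zero.1 h6 with h7 | h7
        · exfalso
          apply hne
          have h8 : sh v.val = sh v'.val := by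
            have : (sh v.val : ℝ) = sh v'.val := by linarith
            exact_mod_cast this
          have h9 : v = v' := by
            apply Fin.ext
            apply sh_inj _ _ h8
            · have := a.2.2; omega
            · have := a'.2.2; omega
          rw [h9]
        · have h8 : t = 1 := by linarith
          refine ⟨u, Or.inl rfl, Or.inl rfl, ?_⟩
          rw [tpos_src rfl a]
          subst h8
          ext
          · rw [e1]; simp [toPlane]
          · rw [e2]; simp [toPlane]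
      · obtain ⟨f1, f2⟩ := cross_lt a' a hs.symm h3 t0' t1' t0 e4.symm e5.symm
        exact fin f2 f1
    · have hsd : (sd u.val : ℝ) = - sd u'.val := by
        have b1 := a.2.2
        have b2 := a'.2.2
        rcases sd_cases u.val with b | b <;> rcases sd_cases u'.val with c | c
        · omega
        · rw [b.2, c.2]; norm_num
        · rw [b.2, c.2]; norm_num
        · omega
      have hsd0 : (sd u'.val : ℝ) ≠ 0 := by
        rcases sd_cases u'.val with b | b <;> rw [b.2] <;> norm_num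
      rw [hsd] at e1'
      have e3 : (2 * (((lv u.val : ℕ) : ℝ) + 1) * t) + (2 * (((lv u'.val : ℕ) : ℝ) + 1) * t') = 0 := by
        apply mul_left_cancel₀ hsd0
        linarith
      have p1 : 0 ≤ (2 * (((lv u.val : ℕ) : ℝ) + 1) * t) := by positivity
      have p2 : 0 ≤ (2 * (((lv u'.val : ℕ) : ℝ) + 1) * t') := by positivity
      have q1 : t = 0 := by
        have : (2 * (((lv u.val : ℕ) : ℝ) + 1) * t) = 0 := by linarith
        rcases mul_eq_zero.1 this with h | h
        · linarith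
        · exact h
      have q2 : t' = 0 := by
        have : (2 * (((lv u'.val : ℕ) : ℝ) + 1) * t') = 0 := by linarith
        rcases mul_eq_zero.1 this with h | h
        · linarith
        · exact h
      exact fin q1 q2
  vertex_free := by
    intro u v w h hw
    have a : towerAdj (n / 5) u.val v.val := h
    obtain ⟨t, t0, t1, e1, e2⟩ := edge_param rfl a hw
    have hu0 : (0 : ℝ) ≤ ((lv u.val : ℕ) : ℝ) := Nat.cast_nonneg _
    have hsd0 : (sd u.val : ℝ) ≠ 0 := by
      rcases sd_cases u.val with b | b <;> rw [b.2] <;> norm_num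
    have hx : (toPlane (tpos n w.val)).1 = ((tpos n w.val).1 : ℝ) := rfl
    have hy : (toPlane (tpos n w.val)).2 = ((tpos n w.val).2 : ℝ) := rfl
    rw [hx] at e1
    rw [hy] at e2
    have hzero : (tpos n w.val).1 = 0 → t = 0 := by
      intro h0
      rw [h0, Int.cast_zero] at e1
      have h1 : (2 * (((lv u.val : ℕ) : ℝ) + 1) * t) = 0 := by
        rcases mul_eq_zero.1 e1.symm with h | h
        · exact absurd h hsd0
        · exact h
      rcases mul_eq_zero.1 h1 with h | h
      · linarith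
      · exact h
    by_cases hw1 : w.val < 5 * (n / 5)
    · by_cases hw2 : w.val % 5 ≤ 1
      · left
        have hp : tpos n w.val = ((sd w.val * (2 * (((lv w.val : ℕ) : ℤ) + 1)),
            -4 * (((lv w.val : ℕ) : ℤ) + 1)) : ℤ × ℤ) := by
          unfold tpos
          rw [if_pos hw1, if_pos hw2]
        rw [hp] at e1 e2
        push_cast at e1 e2
        have hw0 : (0 : ℝ) ≤ ((lv w.val : ℕ) : ℝ) := Nat.cast_nonneg _
        have hs : sd w.val = sd u.val := by
          rcases sd_cases u.val with b | b <;> rcases sd_cases w.val with c | c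
          · rw [b.2, c.2]
          · rw [b.2, c.2] at e1
            push_cast at e1
            exfalso
            have : 0 ≤ (2 * (((lv u.val : ℕ) : ℝ) + 1) * t) := by positivity
            linarith
          · rw [b.2, c.2] at e1
            push_cast at e1
            exfalso
            have : 0 ≤ (2 * (((lv u.val : ℕ) : ℝ) + 1) * t) := by positivity
            linarith
          · rw [b.2, c.2]
        rw [hs] at e1
        have e3 := mul_left_cancel₀ hsd0 e1
        have e4 : (sh v.val : ℝ) * (1 - t) = 0 := by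
          have : (((lv u.val : ℕ) : ℝ) + 1) * t = ((lv w.val : ℕ) : ℝ) + 1 := by linarith
          linarith
        have e5 : t = 1 := by
          rcases mul_eq_zero.1 e4 with h | h
          · exact absurd (by exact_mod_cast h) (sh_ne (v := v.val))
          · linarith
        rw [e5] at e3
        have e6 : (((lv w.val : ℕ) : ℝ)) = ((lv u.val : ℕ) : ℝ) := by linarith
        have e7 : lv w.val = lv u.val := by exact_mod_cast e6
        unfold lv at e7
        have b1 := a.2.2
        apply Fin.ext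
        rcases sd_cases u.val with b | b <;> rcases sd_cases w.val with c | c
        · omega
        · rw [b.2, c.2] at hs; omega
        · rw [b.2, c.2] at hs; omega
        · omega
      · right
        have hp : tpos n w.val = (0, sh w.val) := by
          unfold tpos
          rw [if_pos hw1, if_neg hw2]
        have ht := hzero (by rw [hp])
        rw [hp, ht] at e2
        have e3 : (sh w.val : ℝ) = sh v.val := by linarith
        apply Fin.ext
        apply sh_inj
        · omega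
        · have := a.2.2; omega
        · exact_mod_cast e3
    · exfalso
      have hp : tpos n w.val = ((0, 2 * (n : ℤ) + 5 + (w.val : ℤ)) : ℤ × ℤ) := by
        unfold tpos
        rw [if_neg hw1]
      have ht := hzero (by rw [hp])
      rw [hp, ht] at e2
      have e3 : ((2 * n + 5 + w.val : ℤ) : ℝ) = sh v.val := by linarith
      have e4 : (2 * n + 5 + w.val : ℤ) = sh v.val := by exact_mod_cast e3
      have b1 := a.2.1
      unfold sh lv at e4
      split_ifs at e4 <;> omega

/-! ### The theorem -/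

theorem inBox_exists {n : ℕ} {G : BipDAG n} (D : PolyDrawing G) :
    ∃ (x₀ y₀ : ℤ) (W H : ℕ), D.InBox x₀ y₀ W H := by
  classical
  -- all corners of the drawing
  let S : Finset (ℤ × ℤ) := Finset.univ.image D.pos ∪
    Finset.univ.biUnion fun u => Finset.univ.biUnion fun v => (D.bends u v).toFinset
  obtain ⟨M, hM⟩ : ∃ M : ℕ, ∀ p ∈ S, p.1.natAbs ≤ M ∧ p.2.natAbs ≤ M := by
    refine ⟨S.sup fun p => max p.1.natAbs p.2.natAbs, fun p hp => ?_⟩
    have : max p.1.natAbs p.2.natAbs ≤ S.sup fun p => max p.1.natAbs p.2.natAbs :=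
      Finset.le_sup (f := fun p : ℤ × ℤ => max p.1.natAbs p.2.natAbs) hp
    exact ⟨(le_max_left _ _).trans this, (le_max_right _ _).trans this⟩
  refine ⟨-M, -M, 2 * M, 2 * M, ?_, ?_⟩
  · intro v
    have := hM (D.pos v) (by
      apply Finset.mem_union_left
      exact Finset.mem_image_of_mem _ (Finset.mem_univ _))
    push_cast
    omega
  · intro u v _ p hp
    have := hM p (by
      apply Finset.mem_union_right
      refine Finset.mem_biUnion.2 ⟨u, Finset.mem_univ _, ?_⟩
      exact Finset.mem_biUnion.2 ⟨v, Finset.mem_univ _, by simpa using hp⟩)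
    push_cast
    omega

theorem area_lower {n : ℕ} (D : PolyDrawing (tower n)) : (n / 5 - 2) ^ 2 ≤ D.area := by
  have hne : {a | ∃ (x₀ y₀ : ℤ) (W H : ℕ), D.InBox x₀ y₀ W H ∧ a = W * H}.Nonempty := by
    obtain ⟨x₀, y₀, W, H, h⟩ := inBox_exists D
    exact ⟨_, x₀, y₀, W, H, h, rfl⟩
  obtain ⟨x₀, y₀, W, H, h, he⟩ := Nat.sInf_mem hne
  have h1 := tower_lower D h
  unfold PolyDrawing.area
  rw [he, sq]
  exact Nat.mul_le_mul h1.1 h1.2

theorem A_lower (n : ℕ) : (n / 5 - 2) ^ 2 ≤ A n := by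
  have hfin : {a | ∃ G : BipDAG n, Nonempty (PolyDrawing G) ∧ a = minArea G}.Finite := by
    have hG : Finite (BipDAG n) := by
      refine Finite.of_injective (fun G : BipDAG n => (G.src, G.Adj)) ?_
      rintro ⟨s1, a1, h1⟩ ⟨s2, a2, h2⟩ h
      simp only [Prod.mk.injEq] at h
      obtain ⟨rfl, rfl⟩ := h
      rfl
    refine (Set.finite_range (fun G : BipDAG n => minArea G)).subset ?_
    rintro a ⟨G, -, rfl⟩
    exact ⟨G, rfl⟩
  have h1 : minArea (tower n) ≤ A n :=
    le_csSup hfin.bddAbove ⟨tower n, ⟨tdraw n⟩, rfl⟩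
  refine le_trans ?_ h1
  have hne : {a | ∃ D : PolyDrawing (tower n), a = D.area}.Nonempty := ⟨_, tdraw n, rfl⟩
  obtain ⟨D, he⟩ := Nat.sInf_mem hne
  unfold minArea
  rw [he]
  exact area_lower D

/-- **Theorem.** `A_p(n) ≥ (n/5 - 3)²` for every `n ≥ 15`; in particular `A_p(n) = Ω(n²)`. -/
theorem result : ∀ n : ℕ, 15 ≤ n → ((n : ℝ) / 5 - 3) ^ 2 ≤ (A n : ℝ) := by
  intro n hn
  have h1 : (((n / 5 - 2 : ℕ) : ℝ)) ^ 2 ≤ (A n : ℝ) := by exact_mod_cast A_lower n
  refine le_trans ?_ h1
  have h2 : n ≤ 5 * (n / 5 - 2) + 15 := by omega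
  have h3 : (n : ℝ) ≤ 5 * ((n / 5 - 2 : ℕ) : ℝ) + 15 := by exact_mod_cast h2
  have h4 : (15 : ℝ) ≤ n := by exact_mod_cast hn
  apply pow_le_pow_left₀ <;> linarith

end Pool.Agent.Results.MP_9caa86_co.PolylineQuadratic
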